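import Pool.Agent.H74.BRB.Stmts

/-!
# BRB, row CUT: the cut-off function
-/

set_option autoImplicit false

namespace Pool.BRB

namespace CUTaux

theorem har_zero : har 0 = 0 := by simp [har]

theorem har_succ (n : ℕ) : har (n + 1) = har n + 1 / ((n : ℝ) + 1) := by
  simp [har, Finset.sum_range_succ]

theorem har_mono {m n : ℕ} (h : m ≤ n) : har m ≤ har n := by
  induction n, h using Nat.le_induction with
  | base => exact le_rfl
  | succ n _ ih =>
    rw [har_succ]
    have : (0 : ℝ) ≤ 1 / ((n : ℝ) + 1) := by positivity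
    linarith

theorem one_le_har {r : ℕ} (h : 1 ≤ r) : 1 ≤ har r := by
  have h1 := har_mono h
  have h2 : har 1 = 1 := by simp [har]
  linarith

theorem nn_step (v d : ℤ × ℤ) (b : Bool) :
    nn (v + if b then (0, 1) else (1, 0)) d ≤ nn v d + 1 ∧
    nn v d ≤ nn (v + if b then (0, 1) else (1, 0)) d + 1 := by
  cases b <;> simp [nn] <;> omega

theorem key (a a' r : ℕ) (h : a' ≤ a + 1) (h' : a ≤ a' + 1) (hr : a ≤ r) :
    |har (min a' r) - har (min a r)| ≤ 1 / max (a : ℝ) 1 := by
  have h0 : (0 : ℝ) ≤ 1 / max (a : ℝ) 1 := by positivity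
  rcases Nat.lt_trichotomy a' a with h1 | h1 | h1
  · have h2 : a = a' + 1 := by omega
    subst h2
    rw [min_eq_left (by omega : a' ≤ r), min_eq_left hr, har_succ, abs_le]
    have h3 : max ((a' + 1 : ℕ) : ℝ) 1 = (a' : ℝ) + 1 := by
      push_cast
      exact max_eq_left (by have : (0 : ℝ) ≤ a' := by positivity
                            linarith)
    rw [h3]
    have : (0 : ℝ) ≤ 1 / ((a' : ℝ) + 1) := by positivity
    constructor <;> linarith
  · rw [h1]
    simp
  · have h2 : a' = a + 1 := by omega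
    subst h2
    rcases Nat.lt_or_ge a r with h3 | h3
    · rw [min_eq_left (by omega : a + 1 ≤ r), min_eq_left hr, har_succ]
      have h4 : (0 : ℝ) ≤ 1 / ((a : ℝ) + 1) := by positivity
      rw [show har a + 1 / ((a : ℝ) + 1) - har a = 1 / ((a : ℝ) + 1) by ring, abs_of_nonneg h4]
      apply one_div_le_one_div_of_le (by positivity)
      have h5 : (0 : ℝ) ≤ a := by positivity
      exact max_le (by linarith) (by linarith)
    · have h4 : a = r := by omega
      subst h4
      rw [min_eq_right (by omega : a ≤ a + 1), min_self]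
      simp

theorem mem_box (d v : ℤ × ℤ) (r : ℕ) :
    v ∈ Finset.Icc (d.1 - (r : ℤ)) (d.1 + r) ×ˢ Finset.Icc (d.2 - (r : ℤ)) (d.2 + r) ↔
      nn v d ≤ r := by
  simp only [Finset.mem_product, Finset.mem_Icc, nn]
  omega

theorem card_box (d : ℤ × ℤ) (r : ℕ) :
    (Finset.Icc (d.1 - (r : ℤ)) (d.1 + r) ×ˢ Finset.Icc (d.2 - (r : ℤ)) (d.2 + r)).card =
      (2 * r + 1) ^ 2 := by
  rw [Finset.card_product, Int.card_Icc, Int.card_Icc]
  have h1 : (d.1 + r + 1 - (d.1 - (r : ℤ))).toNat = 2 * r + 1 := by omega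
  have h2 : (d.2 + r + 1 - (d.2 - (r : ℤ))).toNat = 2 * r + 1 := by omega
  rw [h1, h2, sq]

theorem cut_zero {d : ℤ × ℤ} {r : ℕ} (hr : 1 ≤ r) {v : ℤ × ℤ} (h : r ≤ nn v d) :
    cut d r v = 0 := by
  have h1 := one_le_har hr
  rw [cut, min_eq_right h, div_self (by linarith), sub_self]

theorem cut_nonneg {d : ℤ × ℤ} {r : ℕ} (hr : 1 ≤ r) (v : ℤ × ℤ) : 0 ≤ cut d r v := by
  have h1 := one_le_har hr
  have h2 : har (min (nn v d) r) / har r ≤ 1 := by
    rw [div_le_one (by linarith)]
    exact har_mono (min_le_right _ _)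
  rw [cut]
  linarith

theorem cut_le_one {d : ℤ × ℤ} {r : ℕ} (hr : 1 ≤ r) (v : ℤ × ℤ) : cut d r v ≤ 1 := by
  have h1 := one_le_har hr
  have h2 : 0 ≤ har (min (nn v d) r) / har r := by
    apply div_nonneg _ (by linarith)
    have := har_mono (Nat.zero_le (min (nn v d) r))
    rwa [har_zero] at this
  rw [cut]
  linarith

theorem inc_zero {d : ℤ × ℤ} {r : ℕ} (hr : 1 ≤ r) (e : (ℤ × ℤ) × Bool) (h : r < nn e.1 d) :
    inc (cut d r) e = 0 := by
  have h1 := nn_step e.1 d e.2
  rw [inc, cut_zero hr (by omega), cut_zero hr (by omega), sub_zero]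

theorem inc_sq {d : ℤ × ℤ} {r : ℕ} (hr : 1 ≤ r) (e : (ℤ × ℤ) × Bool) (h : nn e.1 d ≤ r) :
    inc (cut d r) e * inc (cut d r) e ≤ (1 / (max (nn e.1 d : ℝ) 1 * har r)) ^ 2 := by
  have h1 := nn_step e.1 d e.2
  have h2 := one_le_har hr
  have h3 := key (nn e.1 d) _ r h1.1 h1.2 h
  rw [← sq, sq_le_sq, inc, cut, cut]
  rw [show 1 - har (min (nn (e.1 + if e.2 then (0, 1) else (1, 0)) d) r) / har r -
      (1 - har (min (nn e.1 d) r) / har r) =
      - ((har (min (nn (e.1 + if e.2 then (0, 1) else (1, 0)) d) r) -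
        har (min (nn e.1 d) r)) / har r) by ring, abs_neg, abs_div,
    abs_of_pos (by linarith : 0 < har r),
    abs_of_nonneg (by positivity : 0 ≤ 1 / (max (nn e.1 d : ℝ) 1 * har r)), ← div_div]
  exact div_le_div_of_nonneg_right h3 (by linarith)

end CUTaux

open CUTaux in
theorem CUT (h1 : SHLStmt) : CUTStmt := by
  intro M d r hr
  have hh := one_le_har hr
  set B := Finset.Icc (d.1 - (r : ℤ)) (d.1 + r) ×ˢ Finset.Icc (d.2 - (r : ℤ)) (d.2 + r) with hB
  have hout : ∀ v, v ∉ B → cut d r v = 0 := by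
    intro v hv
    rw [hB, mem_box] at hv
    exact cut_zero hr (by omega)
  refine ⟨?_, ?_, cut_nonneg hr, ?_, ?_⟩
  · apply (B : Finset (ℤ × ℤ)).finite_toSet.subset
    intro v hv
    by_contra h
    exact hv (hout v h)
  · have : nn d d = 0 := by simp [nn]
    rw [cut, this, Nat.zero_min, har_zero, zero_div, sub_zero]
  · rw [tsum_eq_sum (s := B) (fun v hv => hout v hv)]
    calc ∑ v ∈ B, cut d r v ≤ ∑ v ∈ B, (1 : ℝ) := Finset.sum_le_sum fun v _ => cut_le_one hr v
      _ = (2 * r + 1) ^ 2 := by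
        rw [Finset.sum_const, hB, card_box]
        simp
  · have hs : En M (cut d r) (cut d r) =
        ∑ e ∈ B ×ˢ (Finset.univ : Finset Bool), if M e = true then
          inc (cut d r) e * inc (cut d r) e else 0 := by
      rw [En]
      apply tsum_eq_sum
      intro e he
      have h2 : e.1 ∉ B := fun h => he (Finset.mem_product.2 ⟨h, Finset.mem_univ _⟩)
      rw [hB, mem_box] at h2
      rw [inc_zero hr e (by omega)]
      simp
    have h2 : En M (cut d r) (cut d r) ≤
        ∑ v ∈ B, 2 * (1 / (max (nn v d : ℝ) 1 * har r)) ^ 2 := by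
      rw [hs, Finset.sum_product]
      apply Finset.sum_le_sum
      intro v hv
      have hv' : nn v d ≤ r := by rwa [hB, mem_box] at hv
      have h3 : ∀ b : Bool, (if M (v, b) = true then
          inc (cut d r) (v, b) * inc (cut d r) (v, b) else 0) ≤
          (1 / (max (nn v d : ℝ) 1 * har r)) ^ 2 := by
        intro b
        split_ifs
        · exact inc_sq hr (v, b) hv'
        · positivity
      calc _ ≤ ∑ b : Bool, (1 / (max (nn v d : ℝ) 1 * har r)) ^ 2 :=
            Finset.sum_le_sum fun b _ => h3 b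
        _ = _ := by simp
    have h3 := h1 d (fun j => 2 * (1 / (max (j : ℝ) 1 * har r)) ^ 2) r
    rw [← hB] at h3
    rw [h3] at h2
    have h4 : ∀ j ∈ Finset.range r, 8 * ((j : ℝ) + 1) *
        (2 * (1 / (max ((j + 1 : ℕ) : ℝ) 1 * har r)) ^ 2) = 16 / har r ^ 2 * (1 / ((j : ℝ) + 1)) := by
      intro j _
      have h5 : max ((j + 1 : ℕ) : ℝ) 1 = (j : ℝ) + 1 := by
        push_cast
        exact max_eq_left (by have : (0 : ℝ) ≤ j := by positivity
                              linarith)
      rw [h5]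
      have h6 : (j : ℝ) + 1 ≠ 0 := by positivity
      have h7 : har r ≠ 0 := by linarith
      field_simp
      ring
    rw [Finset.sum_congr rfl h4, ← Finset.mul_sum] at h2
    have h5 : ∑ i ∈ Finset.range r, 1 / ((i : ℝ) + 1) = har r := rfl
    rw [h5] at h2
    have h6 : 2 * (1 / (max ((0 : ℕ) : ℝ) 1 * har r)) ^ 2 = 2 / har r ^ 2 := by
      have h7 : max ((0 : ℕ) : ℝ) 1 = 1 := by simp
      rw [h7]
      have h7 : har r ≠ 0 := by linarith
      field_simp
    rw [h6] at h2
    refine h2.trans ?_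
    have h7 : 0 < har r := by linarith
    rw [show 16 / har r ^ 2 * har r = 16 / har r by field_simp]
    have h8 : 2 / har r ^ 2 ≤ 2 / har r := by
      apply div_le_div_of_nonneg_left (by norm_num) h7
      nlinarith
    have h9 : 18 / har r = 2 / har r + 16 / har r := by ring
    linarith

end Pool.BRB
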